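import Mathlib

/-!
# Geometric graphs, lines and the function `f(n, k)`
-/

namespace Pool.Agent.H879Z.LC

/-- A geometric graph: a finite set `pts` of points of the plane, no three of them collinear,
and a finite set `edges` of unordered pairs of distinct points of `pts`. -/
structure GeomGraph where
  pts : Finset (ℝ × ℝ)
  no_three_collinear : ∀ p ∈ pts, ∀ q ∈ pts, ∀ r ∈ pts, p ≠ q → p ≠ r → q ≠ r →
    ¬ Collinear ℝ ({p, q, r} : Set (ℝ × ℝ))
  edges : Finset (Sym2 (ℝ × ℝ))
  edge_mem : ∀ e ∈ edges, ∀ p ∈ e, p ∈ pts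
  edge_ne : ∀ e ∈ edges, ¬ e.IsDiag

/-- A straight line of the plane. -/
def IsLine (l : Set (ℝ × ℝ)) : Prop :=
  ∃ a b c : ℝ, (a ≠ 0 ∨ b ≠ 0) ∧ l = {x | a * x.1 + b * x.2 = c}

/-- The set `l` meets the relative interior (endpoints excluded) of the segment drawn for `e`. -/
def Meets (l : Set (ℝ × ℝ)) (e : Sym2 (ℝ × ℝ)) : Prop :=
  ∃ u v, e = s(u, v) ∧ (openSegment ℝ u v ∩ l).Nonempty

open Classical in
/-- The number of edges of `G` that the set `l` intersects. -/
noncomputable def GeomGraph.met (G : GeomGraph) (l : Set (ℝ × ℝ)) : ℕ :=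
  (G.edges.filter (fun e => Meets l e)).card

/-- `f n k` : the least `e` such that every geometric graph on `n` points with at least `e` edges
has a straight line intersecting at least `k` of its edges. -/
noncomputable def f (n k : ℕ) : ℕ :=
  sInf {e : ℕ | ∀ G : GeomGraph, G.pts.card = n → e ≤ G.edges.card →
    ∃ l, IsLine l ∧ k ≤ G.met l}

end Pool.Agent.H879Z.LC
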