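import Mathlib
import Pool.Agent.H879Z.LC.Defs

/-!
# The construction: a cyclic band on a parabola
-/

namespace Pool.Agent.H879Z.LC

open Finset

/-- points of the parabola -/
def pt (i : ℕ) : ℝ × ℝ := ((i : ℝ), (i : ℝ) ^ 2)

theorem pt_inj : Function.Injective pt := by
  intro i j h
  have : (i : ℝ) = j := congrArg Prod.fst h
  exact_mod_cast this

theorem pt_gp (i j k : ℕ) (hij : i ≠ j) (hik : i ≠ k) (hjk : j ≠ k) :
    ¬ Collinear ℝ ({pt i, pt j, pt k} : Set (ℝ × ℝ)) := by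
  intro h
  rw [collinear_iff_of_mem (p₀ := pt i) (by simp)] at h
  obtain ⟨v, hv⟩ := h
  obtain ⟨r1, h1⟩ := hv (pt j) (by simp)
  obtain ⟨r2, h2⟩ := hv (pt k) (by simp)
  have a1 : (j : ℝ) = r1 * v.1 + i := by simpa [pt] using congrArg Prod.fst h1
  have a2 : (j : ℝ) ^ 2 = r1 * v.2 + (i : ℝ) ^ 2 := by simpa [pt] using congrArg Prod.snd h1
  have b1 : (k : ℝ) = r2 * v.1 + i := by simpa [pt] using congrArg Prod.fst h2
  have b2 : (k : ℝ) ^ 2 = r2 * v.2 + (i : ℝ) ^ 2 := by simpa [pt] using congrArg Prod.snd h2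
  have hd : ((j : ℝ) - i) * ((k : ℝ) - i) * ((k : ℝ) - j) = 0 := by
    have e1 : ((j : ℝ) - i) * ((k : ℝ) ^ 2 - (i : ℝ) ^ 2) - ((k : ℝ) - i) * ((j : ℝ) ^ 2 - (i : ℝ) ^ 2)
        = 0 := by
      have c1 : (j : ℝ) - i = r1 * v.1 := by linarith
      have c2 : (k : ℝ) - i = r2 * v.1 := by linarith
      have c3 : (j : ℝ) ^ 2 - (i : ℝ) ^ 2 = r1 * v.2 := by linarith
      have c4 : (k : ℝ) ^ 2 - (i : ℝ) ^ 2 = r2 * v.2 := by linarith
      rw [c1, c2, c3, c4]; ring
    rw [← e1]; ring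
  have h3 : (j : ℝ) - i ≠ 0 := sub_ne_zero.2 (by exact_mod_cast hij.symm)
  have h4 : (k : ℝ) - i ≠ 0 := sub_ne_zero.2 (by exact_mod_cast hik.symm)
  have h5 : (k : ℝ) - j ≠ 0 := sub_ne_zero.2 (by exact_mod_cast hjk.symm)
  exact (mul_ne_zero (mul_ne_zero h3 h4) h5) hd

/-- the two values lie on opposite sides of zero, or both vanish -/
def Opp (u v : ℝ) : Prop := (u < 0 ∧ 0 < v) ∨ (v < 0 ∧ 0 < u) ∨ (u = 0 ∧ v = 0)

theorem interval_of (F : ℕ → ℝ)
    (hF : ∀ i1 i2 i3, i1 < i2 → i2 < i3 → F i1 ≤ 0 → F i3 ≤ 0 → F i2 < 0) (n : ℕ) :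
    ∃ s t, s ≤ n ∧ t ≤ n ∧ ∀ i j, i < n → j < n → i ≠ j → Opp (F i) (F j) →
      ¬ ((s ≤ i ∧ i < t) ↔ (s ≤ j ∧ j < t)) := by
  classical
  set S := (range n).filter (fun i => F i < 0 ∨ (F i = 0 ∧ ∃ j, j < i ∧ F j = 0)) with hS
  have hle : ∀ i ∈ S, F i ≤ 0 := by
    intro i hi
    rcases (mem_filter.1 hi).2 with h | h
    · exact h.le
    · exact h.1.le
  have hkey : ∀ i j, i < n → j < n → i ≠ j → Opp (F i) (F j) → ¬ (i ∈ S ↔ j ∈ S) := by
    have hz : ∀ i j, j < n → i < j → F i = 0 → F j = 0 → i ∉ S ∧ j ∈ S := by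
      intro i j hj hij h1 h2
      refine ⟨fun hi => ?_, mem_filter.2 ⟨mem_range.2 hj, Or.inr ⟨h2, i, hij, h1⟩⟩⟩
      rcases (mem_filter.1 hi).2 with h | ⟨_, l, hl, h⟩
      · linarith
      · have := hF l i j hl hij h.le h2.le; linarith
    intro i j hi hj hij h hiff
    rcases h with ⟨h1, h2⟩ | ⟨h1, h2⟩ | ⟨h1, h2⟩
    · have := hle j (hiff.1 (mem_filter.2 ⟨mem_range.2 hi, Or.inl h1⟩)); linarith
    · have := hle i (hiff.2 (mem_filter.2 ⟨mem_range.2 hj, Or.inl h1⟩)); linarith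
    · rcases lt_or_gt_of_ne hij with h3 | h3
      · obtain ⟨g1, g2⟩ := hz i j hj h3 h1 h2; exact g1 (hiff.2 g2)
      · obtain ⟨g1, g2⟩ := hz j i hi h3 h2 h1; exact g1 (hiff.1 g2)
  rcases S.eq_empty_or_nonempty with hE | hE
  · refine ⟨0, 0, by omega, by omega, fun i j hi hj hij h => ?_⟩
    have := hkey i j hi hj hij h
    rw [hE] at this
    simp at this
  · have hmax : S.max' hE < n := mem_range.1 (mem_filter.1 (S.max'_mem hE)).1
    have hmm : S.min' hE ≤ S.max' hE := S.min'_le_max' hE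
    refine ⟨S.min' hE, S.max' hE + 1, by omega, by omega, fun i j hi hj hij h => ?_⟩
    have hmem : ∀ i, i < n → (i ∈ S ↔ (S.min' hE ≤ i ∧ i < S.max' hE + 1)) := by
      intro i hi
      constructor
      · intro h1
        exact ⟨S.min'_le i h1, Nat.lt_succ_of_le (S.le_max' i h1)⟩
      · rintro ⟨h1, h2⟩
        rcases eq_or_lt_of_le h1 with h3 | h3
        · rw [← h3]; exact S.min'_mem hE
        · rcases eq_or_lt_of_le (Nat.le_of_lt_succ h2) with h4 | h4
          · rw [h4]; exact S.max'_mem hE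
          · exact mem_filter.2 ⟨mem_range.2 hi, Or.inl (hF _ _ _ h3 h4
              (hle _ (S.min'_mem hE)) (hle _ (S.max'_mem hE)))⟩
    rw [← hmem i hi, ← hmem j hj]
    exact hkey i j hi hj hij h

theorem conv_quad (a b c : ℝ) (hb : 0 ≤ b) (hab : a ≠ 0 ∨ b ≠ 0) (i1 i2 i3 : ℕ) (h12 : i1 < i2)
    (h23 : i2 < i3) (h1 : a * i1 + b * (i1 : ℝ) ^ 2 - c ≤ 0) (h3 : a * i3 + b * (i3 : ℝ) ^ 2 - c ≤ 0) :
    a * i2 + b * (i2 : ℝ) ^ 2 - c < 0 := by
  have g1 : (0 : ℝ) < (i2 : ℝ) - i1 := sub_pos.2 (by exact_mod_cast h12)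
  have g2 : (0 : ℝ) < (i3 : ℝ) - i2 := sub_pos.2 (by exact_mod_cast h23)
  have g3 : (0 : ℝ) < (i3 : ℝ) - i1 := by linarith
  have key : (a * i2 + b * (i2 : ℝ) ^ 2 - c) * ((i3 : ℝ) - i1) =
      ((i3 : ℝ) - i2) * (a * i1 + b * (i1 : ℝ) ^ 2 - c) +
      ((i2 : ℝ) - i1) * (a * i3 + b * (i3 : ℝ) ^ 2 - c) -
      b * (((i2 : ℝ) - i1) * ((i3 : ℝ) - i2) * ((i3 : ℝ) - i1)) := by ring
  have p1 := mul_nonpos_of_nonneg_of_nonpos g2.le h1
  have p2 := mul_nonpos_of_nonneg_of_nonpos g1.le h3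
  have p3 : 0 < ((i2 : ℝ) - i1) * ((i3 : ℝ) - i2) * ((i3 : ℝ) - i1) := by positivity
  by_contra hcon
  push Not at hcon
  have p4 := mul_nonneg hcon g3.le
  rcases eq_or_lt_of_le hb with h0 | h0
  · have ha : a ≠ 0 := by
      rcases hab with h | h
      · exact h
      · exact absurd h0.symm h
    subst h0
    simp only [zero_mul, add_zero, sub_zero] at *
    have q1 : a * i1 - c = 0 := by
      by_contra hne
      have : a * i1 - c < 0 := lt_of_le_of_ne h1 hne
      have := mul_neg_of_pos_of_neg g2 this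
      linarith
    have q3 : a * i3 - c = 0 := by
      by_contra hne
      have : a * i3 - c < 0 := lt_of_le_of_ne h3 hne
      have := mul_neg_of_pos_of_neg g1 this
      linarith
    have : a * ((i3 : ℝ) - i1) = 0 := by linarith
    exact (mul_ne_zero ha g3.ne') this
  · have := mul_pos h0 p3
    linarith

theorem line_interval (l : Set (ℝ × ℝ)) (hl : IsLine l) (n : ℕ) :
    ∃ s t, s ≤ n ∧ t ≤ n ∧ ∀ i j, i < n → j < n → i ≠ j → Meets l s(pt i, pt j) →
      ¬ ((s ≤ i ∧ i < t) ↔ (s ≤ j ∧ j < t)) := by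
  obtain ⟨a, b, c, hab, rfl⟩ := hl
  have hopp : ∀ (ε : ℝ), ε ≠ 0 → ∀ i j : ℕ, Meets {x : ℝ × ℝ | a * x.1 + b * x.2 = c} s(pt i, pt j) →
      Opp (ε * a * i + ε * b * (i : ℝ) ^ 2 - ε * c) (ε * a * j + ε * b * (j : ℝ) ^ 2 - ε * c) := by
    intro ε hε i j h
    have base : ∀ u v : ℝ × ℝ, (openSegment ℝ u v ∩ {x : ℝ × ℝ | a * x.1 + b * x.2 = c}).Nonempty →
        Opp (ε * a * u.1 + ε * b * u.2 - ε * c) (ε * a * v.1 + ε * b * v.2 - ε * c) := by
      rintro u v ⟨z, ⟨p, q, hp, hq, hpq, rfl⟩, hz⟩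
      have hz' : a * (p * u.1 + q * v.1) + b * (p * u.2 + q * v.2) = c := by
        simpa using hz
      set U := ε * a * u.1 + ε * b * u.2 - ε * c with hU
      set V := ε * a * v.1 + ε * b * v.2 - ε * c with hV
      have h0 : p * U + q * V = 0 := by
        have : p * U + q * V = ε * (a * (p * u.1 + q * v.1) + b * (p * u.2 + q * v.2)) -
          (p + q) * (ε * c) := by rw [hU, hV]; ring
        rw [this, hz', hpq]; ring
      rcases lt_trichotomy U 0 with h1 | h1 | h1
      · left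
        refine ⟨h1, ?_⟩
        by_contra h2
        push Not at h2
        have := mul_neg_of_pos_of_neg hp h1
        have := mul_nonpos_of_nonneg_of_nonpos hq.le h2
        linarith
      · right; right
        refine ⟨h1, ?_⟩
        rw [h1, mul_zero, zero_add] at h0
        exact (mul_eq_zero.1 h0).resolve_left hq.ne'
      · right; left
        refine ⟨?_, h1⟩
        by_contra h2
        push Not at h2
        have := mul_pos hp h1
        have := mul_nonneg hq.le h2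
        linarith
    obtain ⟨u, v, he, hne⟩ := h
    have hb := base u v hne
    rw [Sym2.eq_iff] at he
    rcases he with ⟨h1, h2⟩ | ⟨h1, h2⟩
    · rw [← h1, ← h2] at hb; exact hb
    · rw [← h1, ← h2] at hb
      rcases hb with hb | hb | hb
      · exact Or.inr (Or.inl hb)
      · exact Or.inl hb
      · exact Or.inr (Or.inr ⟨hb.2, hb.1⟩)
  obtain ⟨ε, hε, hεb⟩ : ∃ ε : ℝ, ε ≠ 0 ∧ 0 ≤ ε * b := by
    rcases le_total 0 b with h | h
    · exact ⟨1, one_ne_zero, by linarith⟩
    · exact ⟨-1, by norm_num, by linarith⟩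
  obtain ⟨s, t, hs, ht, h⟩ := interval_of (fun i => ε * a * i + ε * b * (i : ℝ) ^ 2 - ε * c)
    (fun i1 i2 i3 h12 h23 h1 h3 => conv_quad (ε * a) (ε * b) (ε * c) hεb (by
      rcases hab with h | h
      · exact Or.inl (mul_ne_zero hε h)
      · exact Or.inr (mul_ne_zero hε h)) i1 i2 i3 h12 h23 h1 h3) n
  exact ⟨s, t, hs, ht, fun i j hi hj hij hm => h i j hi hj hij (hopp ε hε i j hm)⟩

theorem walk (n s t i : ℕ) (hs : s ≤ n) (ht : t ≤ n) (hi : i < n) (l : ℕ) :
    ¬ ((s ≤ i ∧ i < t) ↔ (s ≤ (i + l) % n ∧ (i + l) % n < t)) →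
    ∃ d, 1 ≤ d ∧ d ≤ l ∧ ((i + d) % n = s % n ∨ (i + d) % n = t % n) := by
  induction l with
  | zero =>
    intro h
    rw [Nat.add_zero, Nat.mod_eq_of_lt hi] at h
    exact absurd Iff.rfl h
  | succ l ih =>
    intro h
    by_cases h1 : (s ≤ i ∧ i < t) ↔ (s ≤ (i + l) % n ∧ (i + l) % n < t)
    · refine ⟨l + 1, by omega, le_refl _, ?_⟩
      rw [h1] at h
      have hj : (i + l) % n < n := Nat.mod_lt _ (by omega)
      have e : (i + (l + 1)) % n = ((i + l) % n + 1) % n := by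
        rw [← Nat.add_assoc, Nat.mod_add_mod]
      rw [e] at h ⊢
      generalize (i + l) % n = j at *
      rcases Nat.lt_or_ge (j + 1) n with h2 | h2
      · rw [Nat.mod_eq_of_lt h2] at h ⊢
        have : j + 1 = s ∨ j + 1 = t := by omega
        rcases this with h3 | h3
        · left; rw [← h3, Nat.mod_eq_of_lt h2]
        · right; rw [← h3, Nat.mod_eq_of_lt h2]
      · have h3 : j + 1 = n := by omega
        rw [h3, Nat.mod_self] at h ⊢
        have : s = 0 ∨ t = n := by omega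
        rcases this with h4 | h4
        · left; rw [h4, Nat.zero_mod]
        · right; rw [h4, Nat.mod_self]
    · obtain ⟨d, h2, h3, h4⟩ := ih h1
      exact ⟨d, h2, by omega, h4⟩

theorem back (n i d v : ℕ) (hi : i < n) (hd : d ≤ n) (h : (i + d) % n = v) : i = (v + n - d) % n := by
  rcases Nat.lt_or_ge (i + d) n with h1 | h1
  · rw [Nat.mod_eq_of_lt h1] at h
    have : v + n - d = i + n := by omega
    rw [this, Nat.add_mod_right, Nat.mod_eq_of_lt hi]
  · have e : i + d = (i + d - n) + n := by omega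
    rw [e, Nat.add_mod_right, Nat.mod_eq_of_lt (by omega)] at h
    have : v + n - d = i := by omega
    rw [this, Nat.mod_eq_of_lt hi]

/-- index set of the band -/
def Idx (n k : ℕ) (R : Finset ℕ) : Finset (ℕ × ℕ) :=
  (range n ×ˢ Icc 1 k) ∪ (R ×ˢ {k + 1})

/-- the edge of an index -/
def ed (n : ℕ) (p : ℕ × ℕ) : Sym2 (ℝ × ℝ) := s(pt p.1, pt ((p.1 + p.2) % n))

theorem mem_Idx {n k : ℕ} {R : Finset ℕ} (hR : R ⊆ range n) {p : ℕ × ℕ} (hp : p ∈ Idx n k R) :
    p.1 < n ∧ 1 ≤ p.2 ∧ p.2 ≤ k + 1 ∧ (p.2 = k + 1 → p.1 ∈ R) := by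
  unfold Idx at hp
  rw [mem_union, mem_product, mem_product, mem_range, mem_Icc, mem_singleton] at hp
  rcases hp with ⟨h1, h2, h3⟩ | ⟨h1, h2⟩
  · exact ⟨h1, h2, by omega, by omega⟩
  · exact ⟨mem_range.1 (hR h1), by omega, by omega, fun _ => h1⟩

theorem card_Idx (n k : ℕ) (R : Finset ℕ) : (Idx n k R).card = n * k + R.card := by
  unfold Idx
  rw [card_union_of_disjoint, card_product, card_product]
  · simp
  · rw [disjoint_left]
    intro p h1 h2
    rw [mem_product, mem_Icc] at h1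
    rw [mem_product, mem_singleton] at h2
    omega

theorem mod_cases (n i l : ℕ) (hi : i < n) (hl : l ≤ n) :
    (i + l) % n = i + l ∨ (i + l) % n + n = i + l := by
  rcases Nat.lt_or_ge (i + l) n with h1 | h1
  · left; exact Nat.mod_eq_of_lt h1
  · right
    have e : i + l = (i + l - n) + n := by omega
    rw [e, Nat.add_mod_right, Nat.mod_eq_of_lt (by omega)]

theorem ed_inj (n k : ℕ) (R : Finset ℕ) (hR : R ⊆ range n) (hn : 2 * k + 3 ≤ n) :
    Set.InjOn (ed n) (Idx n k R : Set (ℕ × ℕ)) := by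
  intro p hp q hq h
  obtain ⟨p1, p2, p3, -⟩ := mem_Idx hR (mem_coe.1 hp)
  obtain ⟨q1, q2, q3, -⟩ := mem_Idx hR (mem_coe.1 hq)
  unfold ed at h
  rw [Sym2.eq_iff] at h
  have c1 := mod_cases n p.1 p.2 p1 (by omega)
  have c2 := mod_cases n q.1 q.2 q1 (by omega)
  rcases h with ⟨h1, h2⟩ | ⟨h1, h2⟩
  · have e1 := pt_inj h1
    have e2 := pt_inj h2
    exact Prod.ext e1 (by omega)
  · have e1 := pt_inj h1
    have e2 := pt_inj h2
    exfalso; omega

theorem sum_Icc_id (k : ℕ) : 2 * ∑ l ∈ Icc 1 k, l = k * (k + 1) := by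
  induction k with
  | zero => simp
  | succ k ih => rw [Finset.sum_Icc_succ_top (by omega), Nat.mul_add, ih]; ring

theorem over_card (n k r : ℕ) (R : Finset ℕ) (hR : R ⊆ range n) (hn : 2 * k + 3 ≤ n)
    (hwin : ∀ v, ((Icc 1 (k + 1)).filter (fun d => (v + n - d) % n ∈ R)).card ≤ r) (v : ℕ)
    (T : Finset (ℕ × ℕ)) (hT : ∀ p ∈ T, p ∈ Idx n k R ∧ ∃ d, 1 ≤ d ∧ d ≤ p.2 ∧ (p.1 + d) % n = v) :
    2 * T.card ≤ k * (k + 1) + 2 * r := by
  set T1 := ((Icc 1 k).sigma (fun l => Icc 1 l)).image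
    (fun q : (_ : ℕ) × ℕ => (((v + n - q.2) % n, q.1) : ℕ × ℕ)) with hT1
  set T2 := ((Icc 1 (k + 1)).filter (fun d => (v + n - d) % n ∈ R)).image
    (fun d => (((v + n - d) % n, k + 1) : ℕ × ℕ)) with hT2
  have hsub : T ⊆ T1 ∪ T2 := by
    intro p hp
    obtain ⟨h1, d, h2, h3, h4⟩ := hT p hp
    obtain ⟨p1, p2, p3, p4⟩ := mem_Idx hR h1
    have hb := back n p.1 d v p1 (by omega) h4
    rw [mem_union]
    rcases Nat.lt_or_ge p.2 (k + 1) with h5 | h5
    · left
      rw [hT1, mem_image]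
      refine ⟨⟨p.2, d⟩, ?_, ?_⟩
      · rw [mem_sigma, mem_Icc, mem_Icc]; exact ⟨⟨p2, Nat.le_of_lt_succ h5⟩, h2, h3⟩
      · exact Prod.ext hb.symm rfl
    · right
      have h6 : p.2 = k + 1 := by omega
      rw [hT2, mem_image]
      refine ⟨d, ?_, ?_⟩
      · rw [mem_filter, mem_Icc, ← hb]; exact ⟨⟨h2, by omega⟩, p4 h6⟩
      · exact Prod.ext hb.symm h6.symm
  have c1 : T1.card ≤ ∑ l ∈ Icc 1 k, l := by
    refine le_trans card_image_le ?_
    rw [card_sigma]; simp
  have c2 : T2.card ≤ r := le_trans card_image_le (hwin v)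
  have c3 := (card_le_card hsub).trans (card_union_le _ _)
  have c4 := sum_Icc_id k
  omega

/-- the band as a geometric graph -/
noncomputable def band (n k : ℕ) (R : Finset ℕ) (hR : R ⊆ range n) (hn : 2 * k + 3 ≤ n) :
    GeomGraph where
  pts := by classical exact (range n).image pt
  no_three_collinear := by
    intro p hp q hq r hr hpq hpr hqr
    obtain ⟨i, -, rfl⟩ := mem_image.1 hp
    obtain ⟨j, -, rfl⟩ := mem_image.1 hq
    obtain ⟨l, -, rfl⟩ := mem_image.1 hr
    exact pt_gp i j l (fun h => hpq (by rw [h])) (fun h => hpr (by rw [h]))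
      (fun h => hqr (by rw [h]))
  edges := by classical exact (Idx n k R).image (ed n)
  edge_mem := by
    intro e he p hp
    obtain ⟨q, hq, rfl⟩ := mem_image.1 he
    obtain ⟨q1, -, -, -⟩ := mem_Idx hR hq
    unfold ed at hp
    rw [Sym2.mem_iff] at hp
    rcases hp with rfl | rfl
    · exact mem_image.2 ⟨_, mem_range.2 q1, rfl⟩
    · exact mem_image.2 ⟨_, mem_range.2 (Nat.mod_lt _ (by omega)), rfl⟩
  edge_ne := by
    intro e he hd
    obtain ⟨q, hq, rfl⟩ := mem_image.1 he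
    obtain ⟨q1, q2, q3, -⟩ := mem_Idx hR hq
    unfold ed at hd
    rw [Sym2.mk_isDiag_iff] at hd
    have e1 := pt_inj hd
    have c1 := mod_cases n q.1 q.2 q1 (by omega)
    omega

theorem band_pts (n k : ℕ) (R : Finset ℕ) (hR : R ⊆ range n) (hn : 2 * k + 3 ≤ n) :
    (band n k R hR hn).pts.card = n := by
  unfold band
  simp only
  rw [card_image_of_injective _ pt_inj, card_range]

theorem band_edges (n k : ℕ) (R : Finset ℕ) (hR : R ⊆ range n) (hn : 2 * k + 3 ≤ n) :
    (band n k R hR hn).edges.card = n * k + R.card := by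
  unfold band
  simp only
  rw [card_image_of_injOn (ed_inj n k R hR hn), card_Idx]

theorem band_met (n k r : ℕ) (R R' : Finset ℕ) (hR' : R' ⊆ range n) (hRR : R ⊆ R')
    (hn : 2 * k + 3 ≤ n)
    (hwin : ∀ v, ((Icc 1 (k + 1)).filter (fun d => (v + n - d) % n ∈ R)).card ≤ r)
    (l : Set (ℝ × ℝ)) (hl : IsLine l) :
    (band n k R' hR' hn).met l ≤ k * (k + 1) + 2 * r + (R' \ R).card := by
  classical
  have hR : R ⊆ range n := hRR.trans hR'
  obtain ⟨s, t, hs, ht, hst⟩ := line_interval l hl n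
  set Ts := (Idx n k R).filter (fun p => ∃ d, 1 ≤ d ∧ d ≤ p.2 ∧ (p.1 + d) % n = s % n) with hTs
  set Tt := (Idx n k R).filter (fun p => ∃ d, 1 ≤ d ∧ d ≤ p.2 ∧ (p.1 + d) % n = t % n) with hTt
  have c1 := over_card n k r R hR hn hwin (s % n) Ts (fun p hp => mem_filter.1 hp)
  have c2 := over_card n k r R hR hn hwin (t % n) Tt (fun p hp => mem_filter.1 hp)
  have hsub : (band n k R' hR' hn).edges.filter (fun e => Meets l e) ⊆
      (Ts ∪ Tt ∪ ((R' \ R) ×ˢ {k + 1})).image (ed n) := by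
    intro e he
    obtain ⟨he1, he2⟩ := mem_filter.1 he
    obtain ⟨q, hq, rfl⟩ := mem_image.1 he1
    refine mem_image.2 ⟨q, ?_, rfl⟩
    obtain ⟨q1, q2, q3, q4⟩ := mem_Idx hR' hq
    by_cases hin : q ∈ Idx n k R
    · have c := mod_cases n q.1 q.2 q1 (by omega)
      have h1 := hst q.1 ((q.1 + q.2) % n) q1 (Nat.mod_lt _ (by omega)) (by omega) he2
      obtain ⟨d, d1, d2, d3⟩ := walk n s t q.1 hs ht q1 q.2 h1
      rw [mem_union, mem_union]
      left
      rcases d3 with d3 | d3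
      · left; exact mem_filter.2 ⟨hin, d, d1, d2, d3⟩
      · right; exact mem_filter.2 ⟨hin, d, d1, d2, d3⟩
    · rw [mem_union]
      right
      have h5 : q.2 = k + 1 := by
        by_contra hne
        apply hin
        unfold Idx
        rw [mem_union]; left
        rw [mem_product, mem_range, mem_Icc]; exact ⟨q1, q2, by omega⟩
      rw [mem_product, mem_sdiff, mem_singleton]
      refine ⟨⟨q4 h5, fun h6 => hin ?_⟩, h5⟩
      unfold Idx
      rw [mem_union]; right
      rw [mem_product, mem_singleton]; exact ⟨h6, h5⟩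
  have c3 := (card_le_card hsub).trans card_image_le
  have c4 := card_union_le (Ts ∪ Tt) ((R' \ R) ×ˢ {k + 1})
  have c5 := card_union_le Ts Tt
  rw [card_product, card_singleton, mul_one] at c4
  unfold GeomGraph.met
  have c6 : (Finset.filter (fun e => Meets l e) (band n k R' hR' hn).edges).card ≤
      (Ts ∪ Tt ∪ ((R' \ R) ×ˢ {k + 1})).card := by convert c3
  have : ∀ a b c d e : ℕ, a ≤ b → b ≤ c + d → c ≤ e → a ≤ e + d := by intros; omega
  have c7 := this _ _ _ _ _ c6 c4 c5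
  omega

/-! ### the balanced set of long edges -/

theorem jumps_le (n m j0 w : ℕ) :
    ((range w).filter (fun j => (j0 + j) * m / n < (j0 + j + 1) * m / n)).card + j0 * m / n ≤
      (j0 + w) * m / n := by
  induction w with
  | zero => simp
  | succ w ih =>
    rw [range_add_one, filter_insert]
    have hmono : (j0 + w) * m / n ≤ (j0 + w + 1) * m / n :=
      Nat.div_le_div_right (Nat.mul_le_mul_right _ (by omega))
    rw [← Nat.add_assoc]
    split_ifs with h
    · rw [card_insert_of_notMem (by simp)]; omega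
    · omega

theorem jumps_ge (n m w : ℕ) (hn : 0 < n) (hm : m ≤ n) :
    w * m / n ≤ ((range w).filter (fun j => j * m / n < (j + 1) * m / n)).card := by
  induction w with
  | zero => simp
  | succ w ih =>
    rw [range_add_one, filter_insert]
    have h1 : (w + 1) * m / n ≤ w * m / n + 1 := by
      calc (w + 1) * m / n ≤ (w * m + n) / n := Nat.div_le_div_right (by nlinarith)
        _ = w * m / n + 1 := Nat.add_div_right _ hn
    split_ifs with h
    · rw [card_insert_of_notMem (by simp)]; omega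
    · omega

theorem jump_mod (n m i : ℕ) (hn : 0 < n) :
    ((i % n) * m / n < (i % n + 1) * m / n) ↔ (i * m / n < (i + 1) * m / n) := by
  have e1 : i * m = (i % n) * m + n * (i / n * m) := by
    conv_lhs => rw [← Nat.mod_add_div i n]
    ring
  have e2 : (i + 1) * m = (i % n + 1) * m + n * (i / n * m) := by
    rw [Nat.add_mul, e1]; ring
  rw [e1, e2, Nat.add_mul_div_left _ _ hn, Nat.add_mul_div_left _ _ hn]
  omega

theorem exists_R (n k r : ℕ) (hr : r ≤ k) (hn : 2 * k + 3 ≤ n) :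
    ∃ R : Finset ℕ, R ⊆ range n ∧ R.card = n * r / (k + 1) ∧ R.card < n ∧
      ∀ v, ((Icc 1 (k + 1)).filter (fun d => (v + n - d) % n ∈ R)).card ≤ r := by
  set m := n * r / (k + 1) with hm
  have hm1 : m * (k + 1) ≤ n * r := Nat.div_mul_le_self _ _
  have hm2 : m < n := by
    by_contra h
    push Not at h
    have : n * (k + 1) ≤ m * (k + 1) := Nat.mul_le_mul_right _ h
    have : n * r ≤ n * k := Nat.mul_le_mul_left _ hr
    nlinarith
  have hn0 : 0 < n := by omega
  have hcard : ((range n).filter (fun j => j * m / n < (j + 1) * m / n)).card = m := by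
    have h1 := jumps_le n m 0 n
    have h2 := jumps_ge n m n hn0 hm2.le
    simp only [zero_add, zero_mul, Nat.zero_div, add_zero] at h1
    rw [Nat.mul_div_cancel_left _ hn0] at h1 h2
    omega
  refine ⟨(range n).filter (fun j => j * m / n < (j + 1) * m / n), filter_subset _ _, hcard,
    by rw [hcard]; exact hm2, fun v => ?_⟩
  have h1 := jumps_le n m (v + n - (k + 1)) (k + 1)
  have h2 : (v + n - (k + 1) + (k + 1)) * m / n ≤ (v + n - (k + 1)) * m / n + r := by
    calc (v + n - (k + 1) + (k + 1)) * m / n ≤ ((v + n - (k + 1)) * m + n * r) / n :=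
          Nat.div_le_div_right (by nlinarith)
      _ = _ := Nat.add_mul_div_left _ _ hn0
  refine le_trans ?_ (show ((range (k + 1)).filter (fun j => (v + n - (k + 1) + j) * m / n <
    (v + n - (k + 1) + j + 1) * m / n)).card ≤ r by omega)
  apply card_le_card_of_injOn (fun d => k + 1 - d)
  · intro d hd
    rw [mem_coe, mem_filter, mem_Icc, mem_filter, jump_mod n m _ hn0] at hd
    rw [mem_coe, mem_filter, mem_range]
    have e : v + n - (k + 1) + (k + 1 - d) = v + n - d := by omega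
    refine ⟨by show k + 1 - d < k + 1; omega, ?_⟩
    simp only [e]
    exact hd.2.2
  · intro d hd d' hd' h
    rw [mem_coe, mem_filter, mem_Icc] at hd hd'
    simp only at h
    omega

/-- the construction -/
theorem exists_band (n k r ε : ℕ) (hr : r ≤ k) (hn : 2 * k + 3 ≤ n) (hε : ε ≤ 1) :
    ∃ G : GeomGraph, G.pts.card = n ∧ G.edges.card = n * k + n * r / (k + 1) + ε ∧
      ∀ l, IsLine l → G.met l ≤ k * (k + 1) + 2 * r + ε := by
  obtain ⟨R, h1, h2, h3, h4⟩ := exists_R n k r hr hn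
  rcases Nat.eq_zero_or_pos ε with h0 | h0
  · refine ⟨band n k R h1 hn, band_pts _ _ _ _ _, by rw [band_edges, h2, h0, add_zero], fun l hl => ?_⟩
    have := band_met n k r R R h1 (Subset.refl _) hn h4 l hl
    simp only [sdiff_self, bot_eq_empty, card_empty, add_zero] at this
    omega
  · obtain ⟨i0, hi0, hi1⟩ : ∃ i0 ∈ range n, i0 ∉ R := by
      by_contra hcon
      push Not at hcon
      have := card_le_card (show range n ⊆ R from hcon)
      rw [card_range] at this
      omega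
    have h5 : insert i0 R ⊆ range n := insert_subset hi0 h1
    refine ⟨band n k (insert i0 R) h5 hn, band_pts _ _ _ _ _, ?_, fun l hl => ?_⟩
    · rw [band_edges, card_insert_of_notMem hi1, h2]; omega
    · have := band_met n k r R (insert i0 R) h5 (subset_insert _ _) hn h4 l hl
      rw [insert_sdiff_of_notMem _ hi1] at this
      simp only [sdiff_self, bot_eq_empty, insert_empty_eq, card_singleton] at this
      omega

end Pool.Agent.H879Z.LC
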