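import Mathlib
import Pool.Agent.LinesCross.Plane

/-!
# Upper bounds for geometric graphs all of whose lines cross at most `K` edges
-/

namespace Pool.Agent.H879Z.LC

open Finset Pool.Agent.LinesCross

variable {ι : Type} [DecidableEq ι]

/-- the combinatorial data of a geometric graph whose lines cross at most `K` edges -/
structure Geo (A : ι → ι → ℕ) (x y : ι → ℝ) (V : Finset ι) (K : ℕ) : Prop where
  sym : ∀ c d, A c d = A d c
  zero : ∀ c, A c c = 0
  le1 : ∀ c d, A c d ≤ 1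
  cut : ∀ α β : ℝ, (∀ r ∈ V, y r ≠ α * x r + β) →
      Cr A (fun r => decide (α * x r + β < y r)) V V ≤ K
  gp : ∀ α β : ℝ, ∀ p ∈ V, ∀ q ∈ V, p ≠ q → y p = α * x p + β → y q = α * x q + β →
        ∀ r ∈ V, y r = α * x r + β → r = p ∨ r = q
  inj : ∀ p ∈ V, ∀ q ∈ V, x p = x q → p = q
  vert : ∀ c : ℝ, (∀ r ∈ V, x r ≠ c) → ∀ L R : Finset ι, L ⊆ V → R ⊆ V →
      (∀ p ∈ L, x p < c) → (∀ p ∈ R, c < x p) → W A L R ≤ K

theorem W_split (A : ι → ι → ℕ) (hsym : ∀ c d, A c d = A d c) (S X : Finset ι) (h : S ⊆ X) :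
    W A X X = W A S S + 2 * W A S (X \ S) + W A (X \ S) (X \ S) := by
  have hd : Disjoint S (X \ S) := Finset.disjoint_sdiff
  have hu : S ∪ (X \ S) = X := Finset.union_sdiff_of_subset h
  conv_lhs => rw [← hu]
  rw [W_union_left A _ _ _ hd, W_union_right A _ _ _ hd, W_union_right A _ _ _ hd,
    W_comm A hsym (X \ S) S]
  ring

/-- a line cutting prescribed numbers of points from two separated sets -/
theorem two_cut {A : ι → ι → ℕ} {x y : ι → ℝ} {V : Finset ι} {K : ℕ} (G : Geo A x y V K)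
    (c : ℝ) (L R : Finset ι) (hLV : L ⊆ V) (hRV : R ⊆ V) (hL : ∀ p ∈ L, x p < c)
    (hR : ∀ p ∈ R, c < x p) (a b : ℕ) (ha : 1 ≤ a) (ha1 : a ≤ L.card) (hb : 1 ≤ b)
    (hb1 : b ≤ R.card) :
    ∃ S ⊆ L, ∃ T ⊆ R, S.card = a ∧ T.card = b ∧ W A S (L \ S) + W A T (R \ T) ≤ K := by
  set x' : ι → ℝ := fun r => x r - c with hx'
  have hgp : ∀ α β : ℝ, ∀ p ∈ V, ∀ q ∈ V, p ≠ q → y p = α * x' p + β → y q = α * x' q + β →
        ∀ r ∈ V, y r = α * x' r + β → r = p ∨ r = q := by
    intro α β p hp q hq hpq h1 h2 r hr h3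
    exact G.gp α (β - α * c) p hp q hq hpq (by rw [h1, hx']; ring) (by rw [h2, hx']; ring) r hr
      (by rw [h3, hx']; ring)
  have hL' : ∀ p ∈ L, x' p < 0 := fun p hp => by have := hL p hp; simp only [hx']; linarith
  have hR' : ∀ p ∈ R, 0 < x' p := fun p hp => by have := hR p hp; simp only [hx']; linarith
  obtain ⟨α, β, p, hp, q, hq, hpl, hql, h1', h2', h3', h4'⟩ := exists_pivot x' y
    (fun _ => 1) (fun _ => 1) L R hL' hR' (by
      intro α β p hp q hq h1 h2 r hr h3
      refine hgp α β p (hLV hp) q (hRV hq) ?_ h1 h2 r ?_ h3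
      · rintro rfl; linarith [hL p hp, hR p hq]
      · rw [Finset.mem_union] at hr
        rcases hr with h | h
        · exact hLV h
        · exact hRV h) a b ha (by simpa using ha1) hb (by simpa using hb1)
  rw [← Finset.card_eq_sum_ones] at h1' h2' h3' h4'
  have hxp := hL' p hp
  have hxq := hR' q hq
  have hpq : p ≠ q := by rintro rfl; linarith
  obtain ⟨α', β', k1, k2, k3, k4⟩ := exists_perturb x' y V α β p q (by linarith) hpl hql
    (hgp α β p (hLV hp) q (hRV hq) hpq hpl hql) true true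
  set f : ι → Bool := fun r => decide (α' * x' r + β' < y r) with hf
  have hLt : L.filter (fun c => f c = true) = insert p (L.filter (fun r => α * x' r + β < y r)) := by
    ext c
    simp only [hf, Finset.mem_insert, Finset.mem_filter, decide_eq_true_eq]
    constructor
    · rintro ⟨h, h'⟩
      by_cases hcp : c = p
      · exact Or.inl hcp
      · right
        refine ⟨h, (k2 c (hLV h) hcp ?_).1 h'⟩
        rintro rfl; linarith [hL' c h]
    · rintro (h | ⟨h, h'⟩)
      · rw [h]; exact ⟨hp, k3.2 rfl⟩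
      · refine ⟨h, (k2 c (hLV h) ?_ ?_).2 h'⟩
        · rintro rfl; rw [hpl] at h'; exact lt_irrefl _ h'
        · rintro rfl; linarith [hL' c h]
  have hRt : R.filter (fun c => f c = true) = insert q (R.filter (fun r => α * x' r + β < y r)) := by
    ext c
    simp only [hf, Finset.mem_insert, Finset.mem_filter, decide_eq_true_eq]
    constructor
    · rintro ⟨h, h'⟩
      by_cases hcp : c = q
      · exact Or.inl hcp
      · right
        refine ⟨h, (k2 c (hRV h) ?_ hcp).1 h'⟩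
        rintro rfl; linarith [hR' c h]
    · rintro (h | ⟨h, h'⟩)
      · rw [h]; exact ⟨hq, k4.2 rfl⟩
      · refine ⟨h, (k2 c (hRV h) ?_ ?_).2 h'⟩
        · rintro rfl; linarith [hR' c h]
        · rintro rfl; rw [hql] at h'; exact lt_irrefl _ h'
  have hLtc : (L.filter (fun c => f c = true)).card = a := by
    rw [hLt, Finset.card_insert_of_notMem]
    · omega
    · rw [Finset.mem_filter]; rintro ⟨_, h⟩; rw [hpl] at h; exact lt_irrefl _ h
  have hRtc : (R.filter (fun c => f c = true)).card = b := by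
    rw [hRt, Finset.card_insert_of_notMem]
    · omega
    · rw [Finset.mem_filter]; rintro ⟨_, h⟩; rw [hql] at h; exact lt_irrefl _ h
  have hLR : Disjoint L R := by
    rw [Finset.disjoint_left]; intro c h h'; linarith [hL c h, hR c h']
  have hsd : ∀ X : Finset ι, X \ X.filter (fun c => f c = true) = X.filter (fun c => f c = false) := by
    intro X; ext c
    simp only [Finset.mem_sdiff, Finset.mem_filter]
    cases f c <;> simp
  refine ⟨_, Finset.filter_subset _ _, _, Finset.filter_subset _ _, hLtc, hRtc, ?_⟩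
  rw [hsd, hsd]
  have hK := G.cut α' (β' - α' * c) (by
    intro r hr h; apply k1 r hr; rw [h, hx']; ring)
  have hff : (fun r => decide (α' * x r + (β' - α' * c) < y r)) = f := by
    funext r; simp only [hf, hx']; congr 2; ring
  rw [hff] at hK
  refine le_trans ?_ hK
  rw [← Cr_eq, ← Cr_eq]
  calc Cr A f L L + Cr A f R R ≤ Cr A f (L ∪ R) (L ∪ R) := by
        rw [Cr_union_left A f _ _ _ hLR, Cr_union_right A f _ _ _ hLR,
          Cr_union_right A f _ _ _ hLR]
        omega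
    _ ≤ Cr A f V V := by
        rw [Cr_eq, Cr_eq]
        apply W_mono
        · exact Finset.filter_subset_filter _ (Finset.union_subset hLV hRV)
        · exact Finset.filter_subset_filter _ (Finset.union_subset hLV hRV)

/-- every way to split `g` points off `Y` cuts at least `m` edges -/
def Bad (A : ι → ι → ℕ) (g m : ℕ) (Y : Finset ι) : Prop :=
  g < Y.card ∧ ∀ S ⊆ Y, S.card = g → m ≤ W A S (Y \ S)

theorem hg_bound (A : ι → ι → ℕ) (hsym : ∀ c d, A c d = A d c) (h0 : ∀ c, A c c = 0)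
    (h1 : ∀ c d, A c d ≤ 1) (g h b : ℕ) (hb : 1 ≤ b) (t : ℕ) :
    ∀ X : Finset ι, (∀ Y ⊆ X, ¬ Bad A g (h + 1) Y) → X.card = t * g + b →
      W A X X + X.card ≤ t * (2 * h + g * g) + b * b := by
  induction t with
  | zero =>
    intro X _ hc
    have := W_self_le A h0 h1 X
    rw [hc] at this ⊢
    simpa using this
  | succ t ih =>
    intro X hX hc
    have hnb := hX X (Finset.Subset.refl _)
    unfold Bad at hnb
    push Not at hnb
    have e0 : (t + 1) * g = t * g + g := by ring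
    obtain ⟨S, hS, hSc, hW⟩ := hnb (by omega)
    have hc2 : (X \ S).card = t * g + b := by
      rw [Finset.card_sdiff_of_subset hS]; omega
    have h2 := ih (X \ S) (fun Y hY => hX Y (hY.trans Finset.sdiff_subset)) hc2
    have h3 := W_split A hsym S X hS
    have h4 := W_self_le A h0 h1 S
    rw [hSc] at h4
    have e1 : (t + 1) * (2 * h + g * g) = t * (2 * h + g * g) + (2 * h + g * g) := by ring
    omega

theorem hg_lin (A : ι → ι → ℕ) (hsym : ∀ c d, A c d = A d c) (h0 : ∀ c, A c c = 0)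
    (h1 : ∀ c d, A c d ≤ 1) (k r h : ℕ) (hh : 2 * h = k * (k + 1) + 2 * r)
    (X : Finset ι) (hX : ∀ Y ⊆ X, ¬ Bad A (k + 1) (h + 1) Y) :
    (k + 1) * W A X X ≤ 2 * X.card * (k * (k + 1) + r) := by
  rcases Nat.eq_zero_or_pos X.card with h00 | hpos
  · rw [Finset.card_eq_zero] at h00
    subst h00
    simp [W]
  · obtain ⟨t, b, hb1, hb2, hc⟩ : ∃ t b, 1 ≤ b ∧ b ≤ k + 1 ∧ X.card = t * (k + 1) + b := by
      refine ⟨(X.card - 1) / (k + 1), (X.card - 1) % (k + 1) + 1, by omega, ?_, ?_⟩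
      · have := Nat.mod_lt (X.card - 1) (show k + 1 > 0 by omega); omega
      · have := Nat.div_add_mod' (X.card - 1) (k + 1); omega
    have h2 := hg_bound A hsym h0 h1 (k + 1) h b hb1 t X hX hc
    rw [hc] at h2 ⊢
    obtain ⟨b', rfl⟩ : ∃ b', b = b' + 1 := ⟨b - 1, by omega⟩
    have hb3 : b' ≤ k := by omega
    have h3 : W A X X ≤ 2 * t * (k * (k + 1) + r) + (b' + 1) * b' := by
      have e1 : t * (2 * h + (k + 1) * (k + 1)) = 2 * t * (k * (k + 1) + r) + t * (k + 1) := by
        rw [hh]; ring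
      have e2 : (b' + 1) * (b' + 1) = (b' + 1) * b' + (b' + 1) := by ring
      omega
    have h4 : (k + 1) * ((b' + 1) * b') ≤ 2 * (b' + 1) * (k * (k + 1) + r) := by
      have : (k + 1) * b' ≤ 2 * (k * (k + 1) + r) := by nlinarith
      calc (k + 1) * ((b' + 1) * b') = (b' + 1) * ((k + 1) * b') := by ring
        _ ≤ (b' + 1) * (2 * (k * (k + 1) + r)) := Nat.mul_le_mul_left _ this
        _ = _ := by ring
    calc (k + 1) * W A X X ≤ (k + 1) * (2 * t * (k * (k + 1) + r) + (b' + 1) * b') :=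
          Nat.mul_le_mul_left _ h3
      _ = 2 * (t * (k + 1)) * (k * (k + 1) + r) + (k + 1) * ((b' + 1) * b') := by ring
      _ ≤ 2 * (t * (k + 1)) * (k * (k + 1) + r) + 2 * (b' + 1) * (k * (k + 1) + r) := by omega
      _ = _ := by ring

omit [DecidableEq ι] in
theorem gap_above (x : ι → ℝ) (V : Finset ι) (t : ℝ) :
    ∃ c, t < c ∧ ∀ r ∈ V, t < x r → c < x r := by
  rcases (V.filter (fun r => t < x r)).eq_empty_or_nonempty with h | h
  · refine ⟨t + 1, by linarith, fun r hr h1 => ?_⟩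
    have : r ∈ V.filter (fun r => t < x r) := Finset.mem_filter.2 ⟨hr, h1⟩
    rw [h] at this; simp at this
  · obtain ⟨q, hq, hqm⟩ := Finset.exists_min_image _ x h
    rw [Finset.mem_filter] at hq
    refine ⟨(t + x q) / 2, by linarith [hq.2], fun r hr h1 => ?_⟩
    have := hqm r (Finset.mem_filter.2 ⟨hr, h1⟩)
    linarith [hq.2]

omit [DecidableEq ι] in
theorem gap_below (x : ι → ℝ) (V : Finset ι) (t : ℝ) :
    ∃ c, c < t ∧ ∀ r ∈ V, x r < t → x r < c := by
  obtain ⟨c, h1, h2⟩ := gap_above (fun r => -x r) V (-t)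
  refine ⟨-c, by linarith, fun r hr h => ?_⟩
  have := h2 r hr (by linarith)
  linarith

/-- two separated sets cannot both be bad -/
theorem not_both_bad {A : ι → ι → ℕ} {x y : ι → ℝ} {V : Finset ι} {K : ℕ} (G : Geo A x y V K)
    (c : ℝ) (L R : Finset ι) (hLV : L ⊆ V) (hRV : R ⊆ V) (hL : ∀ p ∈ L, x p < c)
    (hR : ∀ p ∈ R, c < x p) (g m m' : ℕ) (hg : 1 ≤ g) (hm : K < m + m')
    (h1 : Bad A g m L) (h2 : Bad A g m' R) : False := by
  obtain ⟨S, hS, T, hT, hSc, hTc, hW⟩ := two_cut G c L R hLV hRV hL hR g g hg h1.1.le hg h2.1.le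
  have := h1.2 S hS hSc
  have := h2.2 T hT hTc
  omega

/-- the general bound -/
theorem gen_bound {A : ι → ι → ℕ} {x y : ι → ℝ} {V : Finset ι} {K : ℕ} (G : Geo A x y V K)
    (k r h : ℕ) (hh : 2 * h = k * (k + 1) + 2 * r) (hK : K ≤ 2 * h + 1)
    (X : Finset ι) (hX : X ⊆ V) :
    (k + 1) * W A X X ≤ 2 * X.card * (k * (k + 1) + r) + (k + 1) * (4 * K) := by
  classical
  set B := X.filter (fun p => ∃ Y ⊆ X.filter (fun q => x q ≤ x p), Bad A (k + 1) (h + 1) Y) with hB
  have hmemB : ∀ Y ⊆ X, Bad A (k + 1) (h + 1) Y → ∃ p ∈ Y, p ∈ B := by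
    intro Y hY hb
    have hne : Y.Nonempty := Finset.card_pos.1 (by have := hb.1; omega)
    obtain ⟨p, hp, hpm⟩ := Finset.exists_max_image Y x hne
    refine ⟨p, hp, Finset.mem_filter.2 ⟨hY hp, Y, fun q hq => ?_, hb⟩⟩
    exact Finset.mem_filter.2 ⟨hY hq, hpm q hq⟩
  rcases B.eq_empty_or_nonempty with hE | hE
  · have := hg_lin A G.sym G.zero G.le1 k r h hh X (fun Y hY hb => by
      obtain ⟨p, _, hp⟩ := hmemB Y hY hb
      rw [hE] at hp; simp at hp)
    omega
  · obtain ⟨p, hp, hpm⟩ := Finset.exists_min_image B x hE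
    obtain ⟨hpX, Y0, hY0, hb0⟩ := Finset.mem_filter.1 hp
    set L := X.filter (fun q => x q < x p) with hL
    set R := X.filter (fun q => x p < x q) with hR
    have hLX : L ⊆ X := Finset.filter_subset _ _
    have hRX : R ⊆ X := Finset.filter_subset _ _
    obtain ⟨c, hc1, hc2⟩ := gap_above x V (x p)
    obtain ⟨c', hc1', hc2'⟩ := gap_below x V (x p)
    have gL : ∀ Y ⊆ L, ¬ Bad A (k + 1) (h + 1) Y := by
      intro Y hY hb
      obtain ⟨q, hq, hqB⟩ := hmemB Y (hY.trans hLX) hb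
      have h1 := hpm q hqB
      have h2 := (Finset.mem_filter.1 (hY hq)).2
      linarith
    have gR : ∀ Y ⊆ R, ¬ Bad A (k + 1) (h + 1) Y := by
      intro Y hY hb
      refine not_both_bad G c Y0 Y ((hY0.trans (Finset.filter_subset _ _)).trans hX)
        ((hY.trans hRX).trans hX) ?_ ?_ (k + 1) (h + 1) (h + 1) (by omega) (by omega) hb0 hb
      · intro q hq
        have := (Finset.mem_filter.1 (hY0 hq)).2
        linarith
      · intro q hq
        exact hc2 q (hX (hRX (hY hq))) (Finset.mem_filter.1 (hY hq)).2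
    have b1 := hg_lin A G.sym G.zero G.le1 k r h hh L gL
    have b2 := hg_lin A G.sym G.zero G.le1 k r h hh R gR
    have hXR : X \ R = insert p L := by
      ext q
      simp only [hR, hL, Finset.mem_sdiff, Finset.mem_filter, Finset.mem_insert]
      constructor
      · rintro ⟨h1, h2⟩
        by_cases hq : q = p
        · exact Or.inl hq
        · right
          refine ⟨h1, lt_of_le_of_ne (not_lt.1 (fun h3 => h2 ⟨h1, h3⟩)) (fun h3 => hq ?_)⟩
          exact G.inj q (hX h1) p (hX hpX) h3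
      · rintro (h1 | ⟨h1, h2⟩)
        · rw [h1]; exact ⟨hpX, fun h3 => lt_irrefl _ h3.2⟩
        · exact ⟨h1, fun h3 => by linarith [h3.2]⟩
    have hpL : p ∉ L := by
      rw [hL, Finset.mem_filter]; exact fun h3 => lt_irrefl _ h3.2
    have s1 := W_split A G.sym R X hRX
    rw [hXR] at s1
    have s2 := W_split A G.sym L (insert p L) (Finset.subset_insert _ _)
    have hsd : insert p L \ L = {p} := by
      rw [Finset.insert_sdiff_of_notMem _ hpL]; simp
    rw [hsd] at s2
    have s3 : W A {p} {p} = 0 := by simp [W, G.zero]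
    have v1 : W A (insert p L) R ≤ K := by
      refine G.vert c ?_ _ _ (Finset.insert_subset (hX hpX) (hLX.trans hX)) (hRX.trans hX) ?_ ?_
      · intro q hq h3
        rcases lt_or_ge (x p) (x q) with h4 | h4
        · have := hc2 q hq h4; linarith
        · linarith
      · intro q hq
        rcases Finset.mem_insert.1 hq with h3 | h3
        · rw [h3]; exact hc1
        · have := (Finset.mem_filter.1 h3).2; linarith
      · intro q hq
        exact hc2 q (hX (hRX hq)) (Finset.mem_filter.1 hq).2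
    have v2 : W A L {p} ≤ K := by
      refine G.vert c' ?_ _ _ (hLX.trans hX) (Finset.singleton_subset_iff.2 (hX hpX)) ?_ ?_
      · intro q hq h3
        rcases lt_or_ge (x q) (x p) with h4 | h4
        · have := hc2' q hq h4; linarith
        · linarith
      · intro q hq
        exact hc2' q (hX (hLX hq)) (Finset.mem_filter.1 hq).2
      · intro q hq
        rw [Finset.mem_singleton.1 hq]; exact hc1'
    rw [W_comm A G.sym R (insert p L)] at s1
    have hcard : L.card + R.card ≤ X.card := by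
      have h1 : (X \ R).card = X.card - R.card := Finset.card_sdiff_of_subset hRX
      rw [hXR, Finset.card_insert_of_notMem hpL] at h1
      omega
    have s4 : W A X X ≤ W A L L + W A R R + 4 * K := by omega
    have s5 : 2 * (L.card + R.card) * (k * (k + 1) + r) ≤ 2 * X.card * (k * (k + 1) + r) :=
      Nat.mul_le_mul_right _ (by omega)
    calc (k + 1) * W A X X ≤ (k + 1) * (W A L L + W A R R + 4 * K) := Nat.mul_le_mul_left _ s4
      _ = (k + 1) * W A L L + (k + 1) * W A R R + (k + 1) * (4 * K) := by ring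
      _ ≤ 2 * L.card * (k * (k + 1) + r) + 2 * R.card * (k * (k + 1) + r) + (k + 1) * (4 * K) := by
          omega
      _ = 2 * (L.card + R.card) * (k * (k + 1) + r) + (k + 1) * (4 * K) := by ring
      _ ≤ _ := by omega

/-- peeling both sides at once -/
theorem pair_peel {A : ι → ι → ℕ} {x y : ι → ℝ} {V : Finset ι} {K : ℕ} (G : Geo A x y V K)
    (c : ℝ) (g : ℕ) (hg : 1 ≤ g) (t : ℕ) :
    ∀ L R : Finset ι, L ⊆ V → R ⊆ V → (∀ p ∈ L, x p < c) → (∀ p ∈ R, c < x p) →
      L.card = (t + 1) * g → R.card = (t + 1) * g →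
      W A L L + W A R R + 2 * K + 2 * ((t + 1) * g) ≤ (t + 1) * (2 * K + 2 * (g * g)) := by
  induction t with
  | zero =>
    intro L R _ _ _ _ h1 h2
    have e1 := W_self_le A G.zero G.le1 L
    have e2 := W_self_le A G.zero G.le1 R
    rw [h1] at e1; rw [h2] at e2
    simp only [zero_add, one_mul] at e1 e2 ⊢
    omega
  | succ t ih =>
    intro L R hLV hRV hL hR h1 h2
    have e0 : (t + 1 + 1) * g = (t + 1) * g + g := by ring
    obtain ⟨S, hS, T, hT, hSc, hTc, hW⟩ := two_cut G c L R hLV hRV hL hR g g hg (by omega) hg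
      (by omega)
    have h3 := ih (L \ S) (R \ T) (Finset.sdiff_subset.trans hLV) (Finset.sdiff_subset.trans hRV)
      (fun p hp => hL p (Finset.sdiff_subset hp)) (fun p hp => hR p (Finset.sdiff_subset hp))
      (by rw [Finset.card_sdiff_of_subset hS]; omega) (by rw [Finset.card_sdiff_of_subset hT]; omega)
    have s1 := W_split A G.sym S L hS
    have s2 := W_split A G.sym T R hT
    have e1 := W_self_le A G.zero G.le1 S
    have e2 := W_self_le A G.zero G.le1 T
    rw [hSc] at e1; rw [hTc] at e2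
    have e3 : (t + 1 + 1) * (2 * K + 2 * (g * g)) =
      (t + 1) * (2 * K + 2 * (g * g)) + (2 * K + 2 * (g * g)) := by ring
    omega

theorem split_at {A : ι → ι → ℕ} {x y : ι → ℝ} {V : Finset ι} {K : ℕ} (G : Geo A x y V K)
    (a : ℕ) (ha : a ≤ V.card) :
    ∃ (c : ℝ) (L R : Finset ι), L ⊆ V ∧ R ⊆ V ∧ (∀ p ∈ L, x p < c) ∧ (∀ p ∈ R, c < x p) ∧
      L.card = a ∧ R.card = V.card - a ∧ W A V V ≤ W A L L + W A R R + 2 * K := by
  classical
  obtain ⟨c, hc1, hc2⟩ := exists_threshold x V G.inj a ha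
  set L := V.filter (fun p => x p < c) with hL
  have hLV : L ⊆ V := Finset.filter_subset _ _
  have h1 : ∀ p ∈ L, x p < c := fun p hp => (Finset.mem_filter.1 hp).2
  have h2 : ∀ p ∈ V \ L, c < x p := by
    intro p hp
    rw [Finset.mem_sdiff, hL, Finset.mem_filter] at hp
    exact lt_of_le_of_ne (not_lt.1 (fun h => hp.2 ⟨hp.1, h⟩)) (hc1 p hp.1).symm
  refine ⟨c, L, V \ L, hLV, Finset.sdiff_subset, h1, h2, hc2,
    by rw [Finset.card_sdiff_of_subset hLV, hc2], ?_⟩
  have s1 := W_split A G.sym L V hLV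
  have s2 := G.vert c hc1 L (V \ L) hLV Finset.sdiff_subset h1 h2
  omega

theorem exact_even {A : ι → ι → ℕ} {x y : ι → ℝ} {V : Finset ι} {h : ℕ} (G : Geo A x y V (2 * h))
    (k r : ℕ) (hh : 2 * h = k * (k + 1) + 2 * r) (t : ℕ) (hV : V.card = 2 * (t + 1) * (k + 1)) :
    W A V V ≤ 2 * (2 * (t + 1)) * (k * (k + 1) + r) := by
  have e0 : 2 * (t + 1) * (k + 1) = (t + 1) * (k + 1) + (t + 1) * (k + 1) := by ring
  obtain ⟨c, L, R, h1, h2, h3, h4, h5, h6, h7⟩ := split_at G ((t + 1) * (k + 1)) (by omega)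
  have := pair_peel G c (k + 1) (by omega) t L R h1 h2 h3 h4 h5 (by omega)
  have e1 : (t + 1) * (2 * (2 * h) + 2 * ((k + 1) * (k + 1))) =
      2 * (2 * (t + 1)) * (k * (k + 1) + r) + 2 * ((t + 1) * (k + 1)) := by
    rw [hh]; ring
  omega

theorem hg_mult (A : ι → ι → ℕ) (hsym : ∀ c d, A c d = A d c) (h0 : ∀ c, A c c = 0)
    (h1 : ∀ c d, A c d ≤ 1) (k h t : ℕ) (X : Finset ι) (hX : ∀ Y ⊆ X, ¬ Bad A (k + 1) (h + 1) Y)
    (hc : X.card = (t + 1) * (k + 1)) :
    W A X X + 2 * h ≤ (t + 1) * (2 * h + k * (k + 1)) := by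
  have := hg_bound A hsym h0 h1 (k + 1) h (k + 1) (by omega) t X hX (by rw [hc]; ring)
  rw [hc] at this
  have e1 : t * (2 * h + (k + 1) * (k + 1)) + (k + 1) * (k + 1) + 2 * h =
    (t + 1) * (2 * h + k * (k + 1)) + (t + 1) * (k + 1) := by ring
  omega

theorem one_bad {A : ι → ι → ℕ} {x y : ι → ℝ} {V : Finset ι} {h : ℕ} (G : Geo A x y V (2 * h))
    (k r : ℕ) (hh : 2 * h = k * (k + 1) + 2 * r) (t1 t2 : ℕ) (L R : Finset ι) (hLV : L ⊆ V)
    (hL : L.card = (t1 + 1) * (k + 1)) (hR : R.card = (t2 + 1) * (k + 1)) (ht : 6 * h ≤ t2)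
    (ht1 : 1 ≤ t2) (hgood : ∀ Y ⊆ R, ¬ Bad A (k + 1) h Y) :
    W A L L + W A R R + 2 * (2 * h) ≤ 2 * (t1 + 1 + (t2 + 1)) * (k * (k + 1) + r) := by
  rcases Nat.eq_zero_or_pos h with h0 | h0
  · exfalso
    apply hgood R (Finset.Subset.refl _)
    refine ⟨?_, fun S _ _ => by omega⟩
    rw [hR]; nlinarith
  · obtain ⟨h', rfl⟩ : ∃ h', h = h' + 1 := ⟨h - 1, by omega⟩
    have b1 := hg_mult A G.sym G.zero G.le1 k h' t2 R hgood hR
    have b2 := gen_bound G k r (h' + 1) hh (by omega) L hLV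
    rw [hL] at b2
    have b3 : W A L L ≤ 2 * (t1 + 1) * (k * (k + 1) + r) + 4 * (2 * (h' + 1)) := by
      refine Nat.le_of_mul_le_mul_left (c := k + 1) ?_ (by omega)
      calc (k + 1) * W A L L ≤ _ := b2
        _ = _ := by ring
    have e1 : (t2 + 1) * (2 * h' + k * (k + 1)) + 2 * (t2 + 1) = 2 * (t2 + 1) * (k * (k + 1) + r) := by
      have : 2 * h' + k * (k + 1) + 2 = 2 * (k * (k + 1) + r) := by omega
      calc (t2 + 1) * (2 * h' + k * (k + 1)) + 2 * (t2 + 1)
          = (t2 + 1) * (2 * h' + k * (k + 1) + 2) := by ring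
        _ = _ := by rw [this]; ring
    have e2 : 2 * (t1 + 1 + (t2 + 1)) * (k * (k + 1) + r) =
      2 * (t1 + 1) * (k * (k + 1) + r) + 2 * (t2 + 1) * (k * (k + 1) + r) := by ring
    omega

theorem exact_large {A : ι → ι → ℕ} {x y : ι → ℝ} {V : Finset ι} {h : ℕ} (G : Geo A x y V (2 * h))
    (k r : ℕ) (hh : 2 * h = k * (k + 1) + 2 * r) (t : ℕ) (hV : V.card = t * (k + 1))
    (ht : 12 * h + 4 ≤ t) :
    W A V V ≤ 2 * t * (k * (k + 1) + r) := by
  obtain ⟨t1, t2, rfl, g1, g2, g3, g4⟩ : ∃ t1 t2, t = t1 + 1 + (t2 + 1) ∧ 6 * h ≤ t1 ∧ 6 * h ≤ t2 ∧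
      1 ≤ t1 ∧ 1 ≤ t2 := ⟨6 * h + 1, t - (6 * h + 3), by omega, by omega, by omega, by omega, by omega⟩
  have e0 : (t1 + 1 + (t2 + 1)) * (k + 1) = (t1 + 1) * (k + 1) + (t2 + 1) * (k + 1) := by ring
  obtain ⟨c, L, R, h1, h2, h3, h4, h5, h6, h7⟩ := split_at G ((t1 + 1) * (k + 1)) (by omega)
  have h6' : R.card = (t2 + 1) * (k + 1) := by omega
  by_cases hL : ∀ Y ⊆ L, ¬ Bad A (k + 1) (h + 1) Y
  · by_cases hR : ∀ Y ⊆ R, ¬ Bad A (k + 1) (h + 1) Y
    · have b1 := hg_mult A G.sym G.zero G.le1 k h t1 L hL h5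
      have b2 := hg_mult A G.sym G.zero G.le1 k h t2 R hR h6'
      have e1 : (t1 + 1) * (2 * h + k * (k + 1)) + (t2 + 1) * (2 * h + k * (k + 1)) =
          2 * (t1 + 1 + (t2 + 1)) * (k * (k + 1) + r) := by rw [hh]; ring
      omega
    · push Not at hR
      obtain ⟨Y0, hY0, hb0⟩ := hR
      have := one_bad G k r hh t2 t1 R L h2 h6' h5 g1 g3 (fun Y hY hb =>
        not_both_bad G c Y Y0 (hY.trans h1) (hY0.trans h2) (fun p hp => h3 p (hY hp))
          (fun p hp => h4 p (hY0 hp)) (k + 1) h (h + 1) (by omega) (by omega) hb hb0)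
      have e1 : t2 + 1 + (t1 + 1) = t1 + 1 + (t2 + 1) := by ring
      rw [e1] at this
      omega
  · push Not at hL
    obtain ⟨Y0, hY0, hb0⟩ := hL
    have := one_bad G k r hh t1 t2 L R h1 h5 h6' g2 g4 (fun Y hY hb =>
      not_both_bad G c Y0 Y (hY0.trans h1) (hY.trans h2) (fun p hp => h3 p (hY0 hp))
        (fun p hp => h4 p (hY hp)) (k + 1) (h + 1) h (by omega) (by omega) hb0 hb)
    omega

/-- the data of a plane point set -/
theorem geo_of (V : Finset (ℝ × ℝ)) (E : Finset (Sym2 (ℝ × ℝ))) (hGP : GP V)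
    (hEV : ∀ e ∈ E, ∀ p ∈ e, p ∈ V) (hE : ∀ e ∈ E, ¬ e.IsDiag) (K : ℕ) (hK : AllLinesLe V E K) :
    ∃ x y : ℝ × ℝ → ℝ, Geo (Adj E) x y V K ∧ 2 * E.card ≤ W (Adj E) V V := by
  classical
  obtain ⟨t, ht⟩ := exists_shear V
  refine ⟨fun p => p.1 + t * p.2 - 0, fun p => p.2, ⟨Adj_symm E, Adj_self E hE, Adj_le E,
    fun α β h => hK_of V E K hK t 0 α β h, ?_, ?_, ?_⟩,
    card_le_half V E (fun p => p.1 + t * p.2) ht hEV hE⟩
  · intro α β p hp q hq hpq h1 h2 r hr h3
    by_contra hcon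
    push Not at hcon
    exact hGP p hp q hq r hr hpq (Ne.symm hcon.1) (Ne.symm hcon.2)
      (collinear_of_line t 0 α β p q r h1 h2 h3)
  · intro p hp q hq h
    exact ht p hp q hq (by linarith)
  · intro c hc L R hL hR h1 h2
    refine le_trans (W_le_cross E _ _ (fun p => 1 * p.1 + t * p.2) c ?_ ?_)
      (hK 1 t c (Or.inl one_ne_zero) ?_)
    · intro p hp; have := h1 p hp; simp only [one_mul]; linarith
    · intro p hp; have := h2 p hp; simp only [one_mul]; linarith
    · intro p hp h; apply hc p hp; linarith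

end Pool.Agent.H879Z.LC
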