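import Mathlib
import Pool.Agent.H879Z.LC.Upper
import Pool.Agent.H879Z.LC.Lower

namespace Pool.Agent.H879Z.LC

open Finset Pool.Agent.LinesCross

theorem allLines_of (G : GeomGraph) (K : ℕ) (h : ¬ ∃ l, IsLine l ∧ K + 1 ≤ G.met l) :
    AllLinesLe G.pts G.edges K := by
  classical
  intro a b c hab hc
  push Not at h
  have h1 := h {x | a * x.1 + b * x.2 = c} ⟨a, b, c, hab, rfl⟩
  refine le_trans (Finset.card_le_card ?_) (Nat.le_of_lt_succ h1)
  intro e he
  rw [Finset.mem_filter] at he ⊢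
  obtain ⟨he, u, v, rfl, hu, hv⟩ := he
  refine ⟨he, u, v, rfl, ?_⟩
  set Fu := a * u.1 + b * u.2 with hFu
  set Fv := a * v.1 + b * v.2 with hFv
  have hd : 0 < Fv - Fu := by linarith
  refine ⟨((Fv - c) / (Fv - Fu)) • u + ((c - Fu) / (Fv - Fu)) • v,
    ⟨(Fv - c) / (Fv - Fu), (c - Fu) / (Fv - Fu), div_pos (by linarith) hd,
      div_pos (by linarith) hd, by field_simp; ring, rfl⟩, ?_⟩
  show a * _ + b * _ = c
  simp only [Prod.fst_add, Prod.smul_fst, Prod.snd_add, Prod.smul_snd, smul_eq_mul]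
  have : a * ((Fv - c) / (Fv - Fu) * u.1 + (c - Fu) / (Fv - Fu) * v.1) +
      b * ((Fv - c) / (Fv - Fu) * u.2 + (c - Fu) / (Fv - Fu) * v.2) =
      ((Fv - c) * Fu + (c - Fu) * Fv) / (Fv - Fu) := by
    rw [hFu, hFv]; ring
  rw [this]
  field_simp
  ring

theorem f_le (n K M : ℕ)
    (h : ∀ G : GeomGraph, G.pts.card = n → AllLinesLe G.pts G.edges K → G.edges.card ≤ M) :
    M + 1 ∈ {e : ℕ | ∀ G : GeomGraph, G.pts.card = n → e ≤ G.edges.card →
      ∃ l, IsLine l ∧ K + 1 ≤ G.met l} := by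
  intro G hG he
  by_contra hcon
  have := h G hG (allLines_of G K hcon)
  omega

theorem upper (n K k r : ℕ) (hK : K / 2 = k * (k + 1) / 2 + r) (G : GeomGraph)
    (hG : G.pts.card = n) (hA : AllLinesLe G.pts G.edges K) :
    G.edges.card ≤ n * k + n * r / (k + 1) + 2 * K := by
  obtain ⟨x, y, hgeo, hW⟩ := geo_of G.pts G.edges G.no_three_collinear G.edge_mem G.edge_ne K hA
  have hev : 2 * (k * (k + 1) / 2) = k * (k + 1) :=
    Nat.mul_div_cancel' (even_iff_two_dvd.1 (Nat.even_mul_succ_self k))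
  have h1 := gen_bound hgeo k r (K / 2) (by omega) (by omega) G.pts (Finset.Subset.refl _)
  rw [hG] at h1
  have h2 : (k + 1) * (2 * G.edges.card) ≤ (k + 1) * W (Adj G.edges) G.pts G.pts :=
    Nat.mul_le_mul_left _ hW
  have h3 : (G.edges.card - (n * k + 2 * K)) * (k + 1) ≤ n * r := by
    rcases le_total G.edges.card (n * k + 2 * K) with h | h
    · rw [Nat.sub_eq_zero_of_le h]; simp
    · obtain ⟨d, hd⟩ := Nat.exists_eq_add_of_le h
      rw [hd, Nat.add_sub_cancel_left]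
      rw [hd] at h2
      nlinarith
  have h4 := (Nat.le_div_iff_mul_le (show 0 < k + 1 by omega)).2 h3
  omega

theorem upper_exact (n K k r : ℕ) (hK : K / 2 = k * (k + 1) / 2 + r) (hn : 2 * k + 3 ≤ n)
    (he : K % 2 = 0)
    (hc : 2 * (k + 1) ∣ n ∨ ((k + 1) ∣ n ∧ (6 * K + 4) * (k + 1) ≤ n) ∨ (r = 0 ∧ 2 * k ^ 2 ≤ n))
    (G : GeomGraph) (hG : G.pts.card = n) (hA : AllLinesLe G.pts G.edges K) :
    G.edges.card ≤ n * k + n * r / (k + 1) := by
  have hev : 2 * (k * (k + 1) / 2) = k * (k + 1) :=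
    Nat.mul_div_cancel' (even_iff_two_dvd.1 (Nat.even_mul_succ_self k))
  obtain ⟨h, rfl⟩ : ∃ h, K = 2 * h := ⟨K / 2, by omega⟩
  have hh : 2 * h = k * (k + 1) + 2 * r := by omega
  have fin : ∀ t, n = t * (k + 1) → W (Adj G.edges) G.pts G.pts ≤ 2 * t * (k * (k + 1) + r) →
      2 * G.edges.card ≤ W (Adj G.edges) G.pts G.pts → G.edges.card ≤ n * k + n * r / (k + 1) := by
    intro t ht h1 h2
    have e1 : n * r / (k + 1) = t * r := by
      rw [ht, show t * (k + 1) * r = t * r * (k + 1) by ring, Nat.mul_div_cancel _ (by omega)]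
    rw [e1, ht]
    have e2 : 2 * t * (k * (k + 1) + r) = 2 * (t * (k + 1) * k + t * r) := by ring
    omega
  obtain ⟨x, y, hgeo, hW⟩ := geo_of G.pts G.edges G.no_three_collinear G.edge_mem G.edge_ne _ hA
  rcases hc with ⟨t, ht⟩ | ⟨⟨t, ht⟩, h2⟩ | ⟨h0, h2⟩
  · obtain ⟨t', rfl⟩ : ∃ t', t = t' + 1 := ⟨t - 1, by
      rcases Nat.eq_zero_or_pos t with h0 | h0
      · rw [h0] at ht; omega
      · omega⟩
    exact fin (2 * (t' + 1)) (by rw [ht]; ring)
      (exact_even hgeo k r hh t' (by rw [hG, ht]; ring)) hW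
  · refine fin t (by rw [ht]; ring) (exact_large hgeo k r hh t (by rw [hG, ht]; ring) ?_) hW
    rw [ht, mul_comm (k + 1) t] at h2
    have := Nat.le_of_mul_le_mul_right h2 (show 0 < k + 1 by omega)
    omega
  · subst h0
    rcases Nat.eq_zero_or_pos k with hk | hk
    · subst hk
      have h0 : h = 0 := by omega
      have := upper n (2 * h) 0 0 hK G hG hA
      omega
    · have hKk : 2 * h = k * (k + 1) := by omega
      rw [hKk] at hA
      have hm : 1 ≤ n / (2 * k) := (Nat.le_div_iff_mul_le (by omega)).2 (by omega)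
      have h3 : 2 * (n / (2 * k)) * k ≤ n := by
        have := Nat.div_mul_le_self n (2 * k)
        calc 2 * (n / (2 * k)) * k = n / (2 * k) * (2 * k) := by ring
          _ ≤ n := this
      have h4 : n ≤ 2 * (n / (2 * k)) * (k + 1) := by
        have h5 : k ≤ n / (2 * k) := (Nat.le_div_iff_mul_le (by omega)).2 (by nlinarith)
        have h6 := Nat.div_add_mod n (2 * k)
        have h7 := Nat.mod_lt n (show 2 * k > 0 by omega)
        calc n ≤ 2 * k * (n / (2 * k)) + 2 * (n / (2 * k)) := by omega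
          _ = _ := by ring
      have := plane_one G.pts G.edges G.no_three_collinear G.edge_mem G.edge_ne k hk hA
        (n / (2 * k)) hm (by rw [hG]; exact h3) (by rw [hG]; exact h4)
      rw [hG] at this
      exact le_trans this (Nat.le_add_right _ _)

theorem main (n K k r : ℕ) (hr : r ≤ k) (hK : K / 2 = k * (k + 1) / 2 + r) (hn : 2 * k + 3 ≤ n) :
    n * k + n * r / (k + 1) + K % 2 + 1 ≤ f n (K + 1) ∧
    f n (K + 1) ≤ n * k + n * r / (k + 1) + 2 * K + 1 ∧
    (K % 2 = 0 →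
      (2 * (k + 1) ∣ n ∨ ((k + 1) ∣ n ∧ (6 * K + 4) * (k + 1) ≤ n) ∨ (r = 0 ∧ 2 * k ^ 2 ≤ n)) →
      f n (K + 1) = n * k + n * r / (k + 1) + 1) := by
  have hev : 2 * (k * (k + 1) / 2) = k * (k + 1) :=
    Nat.mul_div_cancel' (even_iff_two_dvd.1 (Nat.even_mul_succ_self k))
  have hup := f_le n K _ (upper n K k r hK)
  have hlow : n * k + n * r / (k + 1) + K % 2 + 1 ≤ f n (K + 1) := by
    obtain ⟨G, h1, h2, h3⟩ := exists_band n k r (K % 2) hr hn (by omega)
    apply le_csInf ⟨_, hup⟩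
    intro e he
    by_contra hcon
    obtain ⟨l, hl, hm⟩ := he G h1 (by omega)
    have := h3 l hl
    omega
  refine ⟨hlow, Nat.sInf_le hup, fun he hc => ?_⟩
  have := Nat.sInf_le (f_le n K _ (upper_exact n K k r hK hn he hc))
  unfold f at hlow ⊢
  omega

end Pool.Agent.H879Z.LC
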